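import Pool.Agent.U664.RR.Inf

/-!
# Relative Ramanujan: temperedness is inherited through one quadratic relation between Hecke eigenvalues

Let `Π_0 = 1` (trivial representation of `GL_1`) and `Π_1, …, Π_r` be selfdual automorphic representations of
`GL_{n_i}` over `ℚ`, isobaric sums of unitary cuspidal ones (for instance the lifts of globally generic cuspidal
representations of classical groups), unramified outside the finite set `S`, with Satake parameters `α_{i,p,k}` and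
Hecke eigenvalues `λ_i(p) = ∑_k α_{i,p,k}`. Let `β_1, …, β_m` be the parameters of selfdual Euler products with
continuation and functional equation (automorphic representations which one wants to compare with, for instance
those attached to holomorphic modular forms or to Galois representations). Suppose that for all but finitely many `p`
the parameters are bounded (by any constant `ρ`) and the *one* relation

  `∑_{i,j} c_ij λ_i(p) λ_j(p) = ∑_k d_k tr β_k(p)`,   `c_ij`, `d_k` real,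

holds. Then:

* at **every** prime `p ∉ S` the relation holds for the parameters themselves: for every function `g`,
  `∑ c_ij ∑_{k,l} g(α_{i,p,k} α_{j,p,l}) = ∑ d_k ∑_l g(β_{k,p,l})`;
* **coercive forms.** Let `∑ c_ij X_i X_j` be coercive on the orthant `X_0 = 1`, `X_i ≥ n_i` (only there: for instance
  `X_1 X_2`, with the relation `λ_1(p) λ_2(p) = tr β(p)`, or the indefinite form `X_1² + 3 X_1 X_2 + X_2²`). If the `β_k`
  are tempered at the prime `p ∉ S`, so are all the `Π_i`: all `|α_{i,p,k}| = 1`. If the gamma factors of the `β_k` are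
  tempered (shifts in `0 ≤ Re ≤ 1`) and the `Π_i` are principal series at infinity with parameters
  `|·|^{t_{i,k}} sgn^{ε_{i,k}}`, then all `t_{i,k}` are imaginary;
* **nonnegative coefficients.** If all `c_ij ≥ 0` and `c_ij > 0`, then at every prime `p ∉ S` every product
  `α_{i,p,k} α_{j,p,l}` is a parameter of one of the `β_k` with `d_k > 0`; so if those are tempered at `p`, so are `Π_i`
  and `Π_j`. At infinity `Re t_{i,k} = Re t_{j,l} = 0` if `|Re t| < δ` (`δ = 1/2` by Jacquet-Shalika) and the shifts of the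
  `β_k` are in `0 ≤ Re ≤ 1` or `Re ≥ 1 + 2δ` (with `δ = 1/2`: Maass forms of eigenvalue `≥ 1/4`, holomorphic forms of weight
  `1`, `3` or at least `5`).

No temperedness of the `Π_i` is assumed at any place, the finitely many primes of `T \ S` and the infinite place are
arbitrary, and the right side is not constant.

Only the Rankin-Selberg L-functions `L(s, Π_i × Π_j)` are used (structure `RankinSelberg`: meromorphic continuation of
order at most `3/2` and functional equation; Jacquet, Piatetski-Shapiro, Shalika, Moeglin, Waldspurger), and the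
L-functions of the `β_k` (the same structure with a trivial first factor). Which of them have poles, and where, is
irrelevant.

Idea. By `Pool.Agent.N845.SP.rel_all` (orders of vanishing at the zeros of the Euler and gamma factors in the functional
equations) the relation passes to all powers of the parameters at all `p ∉ S`, and to infinity; the powers of distinct
numbers being independent, it holds for every function `g` of the parameters. With `g(z) = |z|^u` the left side becomes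
`∑ c_ij X_i X_j`, `X_i = ∑_k |α_{i,p,k}|^u ≥ n_i`, and the right side is constant in `u`; so the `X_i` are bounded in `u`.
With `g` the indicator of one number the left side is positive. At infinity, `g(z) = exp(u Re z)`: the sum over a gamma
factor and its mirror image is `(e^u + e^{2u}) X_i X_j`, whatever the signs, and `e^{u(1+a)} + e^{u(2-a)} ≤ e^u + e^{2u}` for
`0 ≤ a ≤ 1` by convexity.
-/

set_option autoImplicit false

namespace Pool.Agent.Results.MP_08cfa9_nt.RelativeRamanujan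

open Filter Topology Complex

/-- Product of inverse gamma factors `1 / Γ_ℝ(s + μ_j)`. -/
noncomputable def invGamma (μ : List ℂ) (s : ℂ) : ℂ := (μ.map fun m => (Gammaℝ (s + m))⁻¹).prod

/-- Finite product of inverse Euler factors `1 - b p^{-s}`. -/
noncomputable def finEuler (l : List (ℕ × ℂ)) (s : ℂ) : ℂ :=
  (l.map fun x => 1 - x.2 * (x.1 : ℂ) ^ (-s)).prod

/-- What is used of the Rankin-Selberg L-function: `L_S(s, Π × Π') = N/D` for `Re s > 1`, with `N` and `D` entire of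
order at most `3/2`, and the functional equation: with
`Λ(s) = q^s · (invGamma μ s)⁻¹ · finEuler l' s / finEuler l s · N s / D s` it says `Λ(s) = ε Λ(1 - s)`. -/
structure RankinSelberg {m n : ℕ} (S : Finset ℕ) (α : ℕ → Fin m → ℂ) (β : ℕ → Fin n → ℂ) (μ : List ℂ)
    (N D : ℂ → ℂ) : Prop where
  entire_N : Differentiable ℂ N
  entire_D : Differentiable ℂ D
  order : ∃ C : ℝ, ∀ s, ‖N s‖ ≤ Real.exp (C * (1 + ‖s‖) ^ (3 / 2 : ℝ)) ∧
    ‖D s‖ ≤ Real.exp (C * (1 + ‖s‖) ^ (3 / 2 : ℝ))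
  ne_zero : ∀ s : ℂ, 1 < s.re → D s ≠ 0
  euler : ∀ s : ℂ, 1 < s.re → Tendsto (fun X : ℕ =>
    ∏ p ∈ (Finset.range X).filter (fun p => p.Prime ∧ p ∉ S),
      ∏ k, ∏ l, (1 - α p k * β p l * (p : ℂ) ^ (-s))⁻¹) atTop (𝓝 (N s / D s))
  functional : ∃ (l l' : List (ℕ × ℂ)) (q : ℝ) (ε : ℂ), 0 < q ∧ ε ≠ 0 ∧
    (∀ x ∈ l, x.1.Prime ∧ x.1 ∈ S) ∧ (∀ x ∈ l', x.1.Prime ∧ x.1 ∈ S) ∧
    ∀ s, (q : ℂ) ^ s * invGamma μ (1 - s) * finEuler l (1 - s) * finEuler l' s * (N s * D (1 - s)) =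
      ε * (q : ℂ) ^ (1 - s) * invGamma μ s * finEuler l s * finEuler l' (1 - s) * (N (1 - s) * D s)

/-- The component at infinity of `Π` is a selfdual principal series with parameters `|·|^{t_k} sgn^{ε_k}`. -/
def Principal {n : ℕ} (t : Fin n → ℂ) (ε : Fin n → ℕ) : Prop :=
  ∃ σ : Equiv.Perm (Fin n), ∀ k, t (σ k) = -t k ∧ ε (σ k) % 2 = ε k % 2

/-- `μ` are the shifts of the gamma factor of `L(s, Π × Π')` for principal series `Π_∞`, `Π'_∞`. -/
def GammaShifts {m n : ℕ} (t : Fin m → ℂ) (ε : Fin m → ℕ) (t' : Fin n → ℂ) (ε' : Fin n → ℕ)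
    (μ : List ℂ) : Prop :=
  (μ : Multiset ℂ) = (Finset.univ : Finset (Fin m × Fin n)).val.map fun q =>
    t q.1 + t' q.2 + (((ε q.1 + ε' q.2) % 2 : ℕ) : ℂ)

/-- **Relative Ramanujan.** `Π_0` is the trivial representation of `GL_1`; `μ i j` are the shifts in the gamma factor of
`L(s, Π_i × Π_j)`, and `ν k` those of the L-function with parameters `β_k`. -/
theorem result {r m : ℕ} {n : Fin (r + 1) → ℕ} {b : Fin m → ℕ} {S T : Finset ℕ}
    (α : ∀ i : Fin (r + 1), ℕ → Fin (n i) → ℂ) (β : ∀ k : Fin m, ℕ → Fin (b k) → ℂ)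
    (h0 : n 0 = 1) (hα0 : ∀ p : ℕ, ∀ k, α 0 p k = 1)
    (hneα : ∀ i, ∀ p : ℕ, p.Prime → p ∉ S → ∀ k, α i p k ≠ 0)
    (hneβ : ∀ k, ∀ p : ℕ, p.Prime → p ∉ S → ∀ l, β k p l ≠ 0)
    (hsdα : ∀ i, ∀ p : ℕ, p.Prime → p ∉ S → ∃ σ : Equiv.Perm (Fin (n i)), ∀ k, α i p (σ k) = (α i p k)⁻¹)
    (hsdβ : ∀ k, ∀ p : ℕ, p.Prime → p ∉ S → ∃ σ : Equiv.Perm (Fin (b k)), ∀ l, β k p (σ l) = (β k p l)⁻¹)
    (μ : Fin (r + 1) → Fin (r + 1) → List ℂ) (ν : Fin m → List ℂ)
    (hRS : ∀ i j, ∃ N D : ℂ → ℂ, RankinSelberg S (α i) (α j) (μ i j) N D)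
    (hL : ∀ k, ∃ N D : ℂ → ℂ, RankinSelberg S (fun _ (_ : Fin 1) => 1) (β k) (ν k) N D)
    (ρ : ℝ) (hbα : ∀ i, ∀ p : ℕ, p.Prime → p ∉ T → ∀ k, ‖α i p k‖ ≤ ρ)
    (hbβ : ∀ k, ∀ p : ℕ, p.Prime → p ∉ T → ∀ l, ‖β k p l‖ ≤ ρ)
    (c : Fin (r + 1) → Fin (r + 1) → ℝ) (d : Fin m → ℝ)
    (hrel : ∀ p : ℕ, p.Prime → p ∉ T →
      ∑ i, ∑ j, (c i j : ℂ) * ((∑ k, α i p k) * ∑ l, α j p l) = ∑ k, (d k : ℂ) * ∑ l, β k p l) :
    -- the relation holds for the parameters themselves
    (∀ p : ℕ, p.Prime → p ∉ S → ∀ g : ℂ → ℝ,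
      ∑ i, ∑ j, c i j * ∑ k, ∑ l, g (α i p k * α j p l) = ∑ k, d k * ∑ l, g (β k p l)) ∧
    -- coercive forms
    ((∀ B : ℝ, ∃ C : ℝ, ∀ X : Fin (r + 1) → ℝ, X 0 = 1 → (∀ i, (n i : ℝ) ≤ X i) →
        |∑ i, ∑ j, c i j * (X i * X j)| ≤ B → ∀ i, X i ≤ C) →
      (∀ p : ℕ, p.Prime → p ∉ S → (∀ k l, ‖β k p l‖ = 1) → ∀ i k, ‖α i p k‖ = 1) ∧
      ∀ (t : ∀ i, Fin (n i) → ℂ) (ε : ∀ i, Fin (n i) → ℕ), (∀ k, t 0 k = 0) →
        (∀ i, Principal (t i) (ε i)) → (∀ i j, GammaShifts (t i) (ε i) (t j) (ε j) (μ i j)) →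
        (∀ k, ∀ x ∈ ν k, 0 ≤ x.re ∧ x.re ≤ 1) → ∀ i k, (t i k).re = 0) ∧
    -- nonnegative coefficients
    ((∀ i j, 0 ≤ c i j) → ∀ i j, 0 < c i j →
      (∀ p : ℕ, p.Prime → p ∉ S → ∀ k l, ∃ k', 0 < d k' ∧ ∃ l', β k' p l' = α i p k * α j p l) ∧
      (∀ p : ℕ, p.Prime → p ∉ S → (∀ k', 0 < d k' → ∀ l', ‖β k' p l'‖ = 1) →
        ∀ k l, ‖α i p k‖ = 1 ∧ ‖α j p l‖ = 1) ∧
      ∀ (t : ∀ i, Fin (n i) → ℂ) (ε : ∀ i, Fin (n i) → ℕ) (δ : ℝ), (∀ i k, |(t i k).re| < δ) →
        (∀ i, Principal (t i) (ε i)) → (∀ i j, GammaShifts (t i) (ε i) (t j) (ε j) (μ i j)) →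
        (∀ k, ∀ x ∈ ν k, 0 ≤ x.re ∧ (x.re ≤ 1 ∨ 1 + 2 * δ ≤ x.re)) →
        ∀ k l, (t i k).re = 0 ∧ (t j l).re = 0) := by
  obtain ⟨h1, h2⟩ := Pool.Agent.U664.RR.rel_main α β c d hneα hneβ hsdα hsdβ μ ν
    (fun i j => by
      obtain ⟨N, D, h⟩ := hRS i j
      exact ⟨N, D, h.entire_N, h.entire_D, h.order, h.ne_zero, h.euler, h.functional⟩)
    (fun k => by
      obtain ⟨N, D, h⟩ := hL k
      exact ⟨N, D, h.entire_N, h.entire_D, h.order, h.ne_zero, h.euler, h.functional⟩)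
    hbα hbβ hrel
  refine ⟨h1, fun hco => ⟨fun p hp hpS hy => ?_, fun t ε ht0 hpr hgam hν => ?_⟩,
    fun hc i j hij => ⟨fun p hp hpS => ?_, fun p hp hpS hy k l => ?_,
      fun t ε δ hδ hpr hgam hν => ?_⟩⟩
  · exact Pool.Agent.U664.RR.tempered_fin c d (fun i => α i p) (fun k => β k p)
      (fun i k => hneα i p hp hpS k) (fun i => hsdα i p hp hpS) h0 (hα0 p) (h1 p hp hpS) hy hco
  · exact Pool.Agent.U664.RR.tempered_inf c d t ε hpr h0 ht0 hgam h2 hν hco
  · exact Pool.Agent.U664.RR.positive_fin c d (fun i => α i p) (fun k => β k p) (h1 p hp hpS) hc i j hij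
  · have key : ∀ k l, ‖α i p k‖ * ‖α j p l‖ = 1 := by
      intro k l
      obtain ⟨k', hd, l', h3⟩ := Pool.Agent.U664.RR.positive_fin c d (fun i => α i p) (fun k => β k p)
        (h1 p hp hpS) hc i j hij k l
      rw [← norm_mul, ← h3]
      exact hy k' hd l'
    obtain ⟨σ, hσ⟩ := hsdα j p hp hpS
    have h3 := key k l
    have h4 := key k (σ l)
    rw [hσ, norm_inv] at h4
    have hpos := norm_pos_iff.2 (hneα j p hp hpS l)
    have h5 : ‖α j p l‖ * ‖α j p l‖ = 1 := by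
      have h6 : ‖α i p k‖ = ‖α j p l‖ := by
        rw [← mul_one ‖α j p l‖, ← h4]
        field_simp
      rw [h6] at h3
      exact h3
    have h7 : ‖α j p l‖ = 1 := by nlinarith
    rw [h7, mul_one] at h3
    exact ⟨h3, h7⟩
  · exact Pool.Agent.U664.RR.positive_inf c d t ε hpr hgam h2 hδ hν hc i j hij

end Pool.Agent.Results.MP_08cfa9_nt.RelativeRamanujan
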