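import Mathlib
import Pool.Agent.R398.AS.Fin
import Pool.Agent.R398.AS.Inf

/-!
# The Ramanujan conjecture for `GL(2)` over number fields at the inert places

Let `K` be a number field, `E / K` a quadratic extension and `π_1, …, π_r` unitary cuspidal automorphic
representations of `GL_2` over `E` with Satake parameters `α_{j,w}`. Results on the density of the
places at which `π_j` is tempered say nothing about the places `w` of `E` of degree two over `K`, those
above the places `v` of `K` which are inert in `E`, as these have density zero among the places of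
`E`. Put `a_{j,v} = α_{j,w,1} + α_{j,w,2}` for inert `v`, `w` the place above `v`. We show, for Dirichlet
densities among the inert places:

* for all `m` and `ρ > 0` the set of the inert `v` with `||a_{j,v}|² - m| ≥ ρ` has upper density at most
  `(1 + (m - 1)²) / ρ²`; in particular (optimal choice of `m`) `|a_{j,v}|² ≥ Z > 1` or `|a_{j,v}|² ≤ Z < 1` hold
  at a set of upper density at most `1 / (1 + (Z - 1)²)`;
* at a set of inert places of lower density at least `1/2` the representation `π_j` is tempered and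
  `a_{j,v} ≠ 0`;
* for every `k ≥ 1` the set of the inert `v` at which at least `k` of the `r` representations are not
  tempered has upper density at most `r / (10 k)`; in particular all `r ≤ 9` representations are tempered
  at the same time at a set of inert places of lower density at least `1 - r / 10`.

The mean values come from the Asai `L`-functions of `A² π = Ad π` and `A⁴ π = Sym⁴ π ⊗ ω^{-2}` and their
twists by the quadratic character of `E / K`: the mean values of `|a_v|²` and `|a_v|⁴` over the inert places are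
`1` and `2`. This is proved in the files `Pool/Agent/R398/AS` of the starting library (theorems `mean_one`,
`mean_two`, `quad`, with the bound `1/10` for one representation); new are the three statements above. What is
used of `π` (all of it is known if `π` is not dihedral, tetrahedral or octahedral and `Ad π`, `A⁴ π` are not
isomorphic to their conjugates under `Gal(E / K)`) is listed in the structure `CuspidalGL2` of
`Pool/Agent/R398/AS/Defs.lean`.
-/

set_option autoImplicit false

namespace Pool.Agent.Results.MP_8410ab_nt.TemperedInertPlaces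

open NumberField IsDedekindDomain Filter Topology
open Pool.Agent.R398.AS (Nm Above Inert CuspidalGL2)

variable {K E : Type} [Field K] [NumberField K] [Field E] [NumberField E] [Algebra K E]

/-- the inert places outside of `S` -/
abbrev Pl (E : Type) [Field E] [NumberField E] [Algebra K E]
    (S : Finset (HeightOneSpectrum (𝓞 K))) : Type :=
  {v : HeightOneSpectrum (𝓞 K) // v ∉ S ∧ Inert E v}

/-- the place `v 𝓞_E` of `E` above the inert place `v` -/
noncomputable def up {S : Finset (HeightOneSpectrum (𝓞 K))} (v : Pl E S) :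
    HeightOneSpectrum (𝓞 E) := Pool.Agent.R398.AS.up v.1 v.2.2

/-- `|a_v|²` -/
noncomputable def size (α : HeightOneSpectrum (𝓞 E) → Fin 2 → ℂ)
    {S : Finset (HeightOneSpectrum (𝓞 K))} (v : Pl E S) : ℝ := ‖∑ i, α (up v) i‖ ^ 2

/-- `π` is tempered at the place above `v` -/
def Tempered (α : HeightOneSpectrum (𝓞 E) → Fin 2 → ℂ)
    {S : Finset (HeightOneSpectrum (𝓞 K))} (v : Pl E S) : Prop := ∀ i, ‖α (up v) i‖ = 1

open scoped Classical in
/-- `∑ (N v)^(-t)` over the inert places `v` with the property `P` -/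
noncomputable def sum {S : Finset (HeightOneSpectrum (𝓞 K))} (P : Pl E S → Prop) (t : ℝ) : ℝ :=
  ∑' v : Pl E S, if P v then (Nm v.1 : ℝ) ^ (-t) else 0

/-- the place above an inert place lies above it and is the only one -/
theorem above_up {S : Finset (HeightOneSpectrum (𝓞 K))} (v : Pl E S)
    (w : HeightOneSpectrum (𝓞 E)) : Above v.1 w ↔ w = up v :=
  Pool.Agent.R398.AS.above_iff v.2.2 w

theorem sum_true {S : Finset (HeightOneSpectrum (𝓞 K))} (t : ℝ) :
    sum (fun _ : Pl E S => True) t = ∑' v : Pl E S, (Nm v.1 : ℝ) ^ (-t) := by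
  unfold sum
  refine tsum_congr fun v => ?_
  rw [if_pos trivial]

open scoped Classical in
theorem summ {S : Finset (HeightOneSpectrum (𝓞 K))} (P : Pl E S → Prop) {t : ℝ} (ht : 1 < t) :
    Summable fun v : Pl E S => if P v then (Nm v.1 : ℝ) ^ (-t) else 0 := by
  have s0 : Summable fun v : Pl E S => (Nm v.1 : ℝ) ^ (-t) :=
    Pool.Agent.R398.AS.summable_IP (E := E) (S := S) ht
  refine Summable.of_nonneg_of_le (fun v => ?_) (fun v => ?_) s0
  · split_ifs
    · exact Pool.Agent.R398.AS.rp_nonneg v t
    · exact le_rfl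
  · split_ifs
    · exact le_rfl
    · exact Pool.Agent.R398.AS.rp_nonneg v t

theorem sum_mono {S : Finset (HeightOneSpectrum (𝓞 K))} {P Q : Pl E S → Prop} {t : ℝ} (ht : 1 < t)
    (h : ∀ v, P v → Q v) : sum P t ≤ sum Q t := by
  classical
  refine Summable.tsum_le_tsum (fun v => ?_) (summ P ht) (summ Q ht)
  by_cases hv : P v
  · rw [if_pos hv, if_pos (h v hv)]
  · rw [if_neg hv]
    split_ifs
    · exact Pool.Agent.R398.AS.rp_nonneg v t
    · exact le_rfl

theorem sum_not {S : Finset (HeightOneSpectrum (𝓞 K))} (P : Pl E S → Prop) {t : ℝ} (ht : 1 < t) :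
    sum (fun _ : Pl E S => True) t = sum P t + sum (fun v => ¬ P v) t := by
  classical
  rw [sum_true]
  unfold sum
  rw [← (summ P ht).tsum_add (summ (fun v => ¬ P v) ht)]
  refine tsum_congr fun v => ?_
  by_cases hv : P v
  · rw [if_pos hv, if_neg (not_not.2 hv), add_zero]
  · rw [if_neg hv, if_pos hv, zero_add]

/-- the values of `|a_v|²` outside of an interval -/
theorem far {S : Finset (HeightOneSpectrum (𝓞 K))} {α : HeightOneSpectrum (𝓞 E) → Fin 2 → ℂ}
    (h : CuspidalGL2 S α) (h2 : Module.finrank K E = 2) (m ρ : ℝ) (hρ : 0 < ρ) :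
    ∃ C : ℝ, ∀ t : ℝ, 1 < t → ρ ^ 2 * sum (fun v : Pl E S => ρ ≤ |size α v - m|) t ≤
      (1 + (m - 1) ^ 2) * sum (fun _ : Pl E S => True) t + C := by
  classical
  obtain ⟨C, hC⟩ := Pool.Agent.R398.AS.quad h h2 m
  refine ⟨C, fun t ht => ?_⟩
  have h3 := hC t ht
  have s0 := Pool.Agent.R398.AS.summable_IP (E := E) (S := S) ht
  have s1 := Pool.Agent.R398.AS.summable_zz1 h h2 ht
  have s2 := Pool.Agent.R398.AS.summable_zz h h2 ht
  rw [sum_true]
  have e : (1 - m) ^ 2 = (m - 1) ^ 2 := by ring
  rw [e] at h3
  refine le_trans ?_ h3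
  unfold sum
  rw [← tsum_mul_left]
  refine Summable.tsum_le_tsum (fun v => ?_) ((summ _ ht).mul_left _) ?_
  · split_ifs with hv
    · refine mul_le_mul_of_nonneg_right ?_ (Pool.Agent.R398.AS.rp_nonneg v t)
      have h4 := pow_le_pow_left₀ hρ.le hv 2
      rw [sq_abs] at h4
      exact h4
    · rw [mul_zero]
      exact mul_nonneg (sq_nonneg _) (Pool.Agent.R398.AS.rp_nonneg v t)
  · refine ((s2.sub (s1.mul_left (2 * m))).add (s0.mul_left (m ^ 2))).congr fun v => ?_
    ring

theorem card_mul {r : ℕ} (p : Fin r → Prop) [DecidablePred p] (i2 : ∀ j, Decidable (p j)) (x : ℝ) :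
    (∑ j, @ite ℝ (p j) (i2 j) x 0) = ((Finset.univ.filter p).card : ℝ) * x := by
  have h : ∀ j, @ite ℝ (p j) (i2 j) x 0 = if p j then x else 0 := by
    intro j
    by_cases hj : p j
    · simp only [hj, if_true]
    · simp only [hj, if_false]
  rw [Finset.sum_congr rfl fun j _ => h j, Finset.sum_ite, Finset.sum_const_zero, add_zero,
    Finset.sum_const, nsmul_eq_mul]

/-- a bound for the complement of a set of places gives a lower bound -/
theorem lower {S : Finset (HeightOneSpectrum (𝓞 K))} (h2 : Module.finrank K E = 2)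
    (P : Pl E S → Prop) (c C d : ℝ) (hd : 0 < d)
    (hC : ∀ t : ℝ, 1 < t → d * sum (fun v => ¬ P v) t ≤ c * sum (fun _ : Pl E S => True) t + C)
    (ε : ℝ) (hε : 0 < ε) : ∀ᶠ t in 𝓝[>] (1 : ℝ),
      (1 - c / d - ε) * sum (fun _ : Pl E S => True) t ≤ sum P t := by
  have hT : Tendsto (fun t => sum (fun _ : Pl E S => True) t) (𝓝[>] 1) atTop := by
    have h0 := Pool.Agent.R398.AS.inert_tendsto (K := K) (E := E) h2 S
    refine h0.congr fun t => ?_
    rw [sum_true]
  filter_upwards [hT.eventually_ge_atTop (C / (d * ε)), self_mem_nhdsWithin] with t h3 ht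
  have ht1 : (1 : ℝ) < t := ht
  have h4 := hC t ht1
  have h5 := sum_not P ht1
  rw [div_le_iff₀ (by positivity)] at h3
  have h6 : sum (fun v => ¬ P v) t ≤ (c / d) * sum (fun _ : Pl E S => True) t + C / d := by
    have h7 : d * sum (fun v => ¬ P v) t / d ≤ (c * sum (fun _ : Pl E S => True) t + C) / d :=
      div_le_div_of_nonneg_right h4 hd.le
    rw [mul_div_cancel_left₀ _ hd.ne'] at h7
    refine h7.trans (le_of_eq ?_)
    ring
  have h8 : C / d ≤ sum (fun _ : Pl E S => True) t * ε := by
    rw [div_le_iff₀ hd]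
    refine h3.trans (le_of_eq ?_)
    ring
  nlinarith [h5, h6, h8]

open scoped Classical in
/-- **The Ramanujan conjecture at the inert places.** -/
theorem result {S : Finset (HeightOneSpectrum (𝓞 K))} {r : ℕ}
    {α : Fin r → HeightOneSpectrum (𝓞 E) → Fin 2 → ℂ}
    (h : ∀ j, CuspidalGL2 S (α j)) (h2 : Module.finrank K E = 2) :
    (∀ (v : Pl E S) (w : HeightOneSpectrum (𝓞 E)), Above v.1 w ↔ w = up v) ∧
    Tendsto (fun t => sum (fun _ : Pl E S => True) t) (𝓝[>] 1) atTop ∧
    -- the upper density of the places with `|a_v|²` outside of an interval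
    (∀ (j : Fin r) (m ρ : ℝ), 0 < ρ → ∃ C : ℝ, ∀ t : ℝ, 1 < t →
      ρ ^ 2 * sum (fun v : Pl E S => ρ ≤ |size (α j) v - m|) t ≤
        (1 + (m - 1) ^ 2) * sum (fun _ : Pl E S => True) t + C) ∧
    -- the lower density of the places at which `π_j` is tempered and `a_v ≠ 0`
    (∀ (j : Fin r) (ε : ℝ), 0 < ε → ∀ᶠ t in 𝓝[>] (1 : ℝ),
      (1 / 2 - ε) * sum (fun _ : Pl E S => True) t ≤
        sum (fun v : Pl E S => Tempered (α j) v ∧ size (α j) v ≠ 0) t) ∧
    -- the upper density of the places at which at least `k` representations are not tempered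
    (∀ k : ℕ, ∃ C : ℝ, ∀ t : ℝ, 1 < t →
      10 * k * sum (fun v : Pl E S =>
          k ≤ (Finset.univ.filter fun j : Fin r => ¬ Tempered (α j) v).card) t ≤
        r * sum (fun _ : Pl E S => True) t + C) ∧
    -- the lower density of the places at which all `r` representations are tempered
    (∀ ε : ℝ, 0 < ε → ∀ᶠ t in 𝓝[>] (1 : ℝ),
      (1 - r / 10 - ε) * sum (fun _ : Pl E S => True) t ≤
        sum (fun v : Pl E S => ∀ j, Tempered (α j) v) t) := by
  have hT : Tendsto (fun t => sum (fun _ : Pl E S => True) t) (𝓝[>] 1) atTop := by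
    have h0 := Pool.Agent.R398.AS.inert_tendsto (K := K) (E := E) h2 S
    refine h0.congr fun t => ?_
    rw [sum_true]
  have hk : ∀ k : ℕ, ∃ C : ℝ, ∀ t : ℝ, 1 < t →
      10 * k * sum (fun v : Pl E S =>
          k ≤ (Finset.univ.filter fun j : Fin r => ¬ Tempered (α j) v).card) t ≤
        r * sum (fun _ : Pl E S => True) t + C := by
    intro k
    have h3 : ∀ j : Fin r, ∃ C : ℝ, ∀ t : ℝ, 1 < t →
        10 * ∑' v : Pl E S, (if ∀ i, ‖α j (up v) i‖ = 1 then 0 else (Nm v.1 : ℝ) ^ (-t)) ≤
          ∑' v : Pl E S, (Nm v.1 : ℝ) ^ (-t) + C :=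
      fun j => Pool.Agent.R398.AS.nontempered (h j) h2
    choose C hC using h3
    refine ⟨∑ j, C j, fun t ht => ?_⟩
    have h4 : (k : ℝ) * sum (fun v : Pl E S =>
          k ≤ (Finset.univ.filter fun j : Fin r => ¬ Tempered (α j) v).card) t ≤
        ∑ j : Fin r, sum (fun v : Pl E S => ¬ Tempered (α j) v) t := by
      unfold sum
      rw [← tsum_mul_left, ← Summable.tsum_finsetSum (fun j _ => summ _ ht)]
      refine Summable.tsum_le_tsum (fun v => ?_) ((summ _ ht).mul_left _)
        (summable_sum fun j _ => summ _ ht)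
      beta_reduce
      have e0 := card_mul (fun j : Fin r => ¬ Tempered (α j) v)
        (fun j => Classical.propDecidable (¬ Tempered (α j) v)) ((Nm v.1 : ℝ) ^ (-t))
      rw [e0]
      have h5 := Pool.Agent.R398.AS.rp_nonneg v t
      split_ifs with hv
      · refine mul_le_mul_of_nonneg_right ?_ h5
        refine (Nat.cast_le (α := ℝ).2 hv).trans (le_of_eq ?_)
        congr!
      · rw [mul_zero]
        positivity
    have h5 : ∀ j : Fin r, 10 * sum (fun v : Pl E S => ¬ Tempered (α j) v) t ≤
        sum (fun _ : Pl E S => True) t + C j := by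
      intro j
      rw [sum_true]
      refine le_trans (le_of_eq ?_) (hC j t ht)
      congr 1
      refine tsum_congr fun v => ?_
      beta_reduce
      by_cases hv : Tempered (α j) v
      · have hv' : ∀ i, ‖α j (up v) i‖ = 1 := hv
        rw [if_pos hv', if_neg (not_not.2 hv)]
      · have hv' : ¬ ∀ i, ‖α j (up v) i‖ = 1 := hv
        rw [if_neg hv', if_pos hv]
    have h6 := Finset.sum_le_sum fun j (_ : j ∈ Finset.univ) => h5 j
    rw [← Finset.mul_sum, Finset.sum_add_distrib, Finset.sum_const, Finset.card_univ,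
      Fintype.card_fin, nsmul_eq_mul] at h6
    calc 10 * k * sum (fun v : Pl E S =>
          k ≤ (Finset.univ.filter fun j : Fin r => ¬ Tempered (α j) v).card) t
        = 10 * (k * sum (fun v : Pl E S =>
          k ≤ (Finset.univ.filter fun j : Fin r => ¬ Tempered (α j) v).card) t) := by ring
      _ ≤ 10 * ∑ j : Fin r, sum (fun v : Pl E S => ¬ Tempered (α j) v) t :=
          mul_le_mul_of_nonneg_left h4 (by norm_num)
      _ ≤ _ := h6
  refine ⟨fun v w => above_up v w, hT, fun j m ρ hρ => far (h j) h2 m ρ hρ, fun j ε hε => ?_, hk,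
    fun ε hε => ?_⟩
  · obtain ⟨C, hC⟩ := far (h j) h2 2 2 (by norm_num)
    have h3 := lower h2 (fun v : Pl E S => Tempered (α j) v ∧ size (α j) v ≠ 0) 2 C 4 (by norm_num)
      (fun t ht => ?_) ε hε
    · have e : (1 : ℝ) - 2 / 4 - ε = 1 / 2 - ε := by ring
      rw [e] at h3
      exact h3
    · have h4 := hC t ht
      have h5 : sum (fun v : Pl E S => ¬ (Tempered (α j) v ∧ size (α j) v ≠ 0)) t ≤
          sum (fun v : Pl E S => 2 ≤ |size (α j) v - 2|) t := by
        refine sum_mono ht fun v hv => ?_
        by_cases hz : size (α j) v = 0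
        · rw [hz]
          norm_num
        · have hn : ¬ Tempered (α j) v := fun hc => hv ⟨hc, hz⟩
          have h6 : 4 ≤ size (α j) v :=
            Pool.Agent.R398.AS.four_le_zz (Pool.Agent.R398.AS.uni (α j) (h j) v) hn
          rw [le_abs]
          left
          linarith
      have e2 : (1 + ((2 : ℝ) - 1) ^ 2) = 2 := by norm_num
      have e3 : (2 : ℝ) ^ 2 = 4 := by norm_num
      rw [e2, e3] at h4
      linarith
  · obtain ⟨C, hC⟩ := hk 1
    refine lower h2 (fun v : Pl E S => ∀ j, Tempered (α j) v) r C 10 (by norm_num)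
      (fun t ht => ?_) ε hε
    have h4 := hC t ht
    have h5 : sum (fun v : Pl E S => ¬ ∀ j, Tempered (α j) v) t ≤
        sum (fun v : Pl E S =>
          1 ≤ (Finset.univ.filter fun j : Fin r => ¬ Tempered (α j) v).card) t := by
      refine sum_mono ht fun v hv => ?_
      obtain ⟨j, hj⟩ := not_forall.1 hv
      exact Finset.card_pos.2 ⟨j, Finset.mem_filter.2 ⟨Finset.mem_univ j, hj⟩⟩
    rw [Nat.cast_one, mul_one] at h4
    linarith

end Pool.Agent.Results.MP_8410ab_nt.TemperedInertPlaces
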